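import Pool.Agent.Run7.h606.DB.Cls

/-!
# All `ℓ²`-Betti numbers vanish if and only if the Euler characteristic does: unfolded flag spheres

Let the flag complex of the finite graph `G` be a homology manifold with the homology of the `(n-1)`-sphere
(`HSph n G`). The quotients of the Davis complex of the right-angled Coxeter group `W G` by its torsion-free
subgroups `H` of finite index are closed aspherical (homology) `n`-manifolds `M` with `χ(M) = [W G : H] χ(W G)`,
`χ(W G) = ∑_T (-1/2)^|T|` (`chiW G`), whose `ℓ²`-Betti numbers vanish if and only if the Davis complex has no nonzero
`ℓ²` harmonic chains (`L2Van G i` for all `i`).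

We prove Q1 for these manifolds if `G` is in the class `LQ (n / 2 + 1)`. This class is closed under the usual
operations and under unfolding: passing from the double `DG G v` (the nerve of a reflection subgroup of index two) to
`G` and back, and from all the graphs `row k` (`2 ^ k` copies of `G - {v, w}` in a row, glued alternately along the
links of `v` and `w`) to `G`. It contains the full subgraphs of flag homology spheres mod `2` of dimension at most
`2 d` which are properly coloured by `d + 1` colours off a set of vertices which generates an amenable group, and the
graphs without cliques with more than `d` elements off such a set.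
-/

set_option autoImplicit false

namespace Pool.Agent.Results.MP_394d50_gt.AmenableReflections

open Pool.Agent.W907.SG Pool.Agent.W907.SM Pool.Agent.Run7.h606.DB
open Pool.Agent.TH652.Above (HSph)

/-- Let the flag complex of the finite graph `G` be a real homology manifold with the real homology of the
`(n-1)`-sphere, and let `G` be in the class `LQ (n / 2 + 1)`. Then the reduced `ℓ²`-homology of the Davis complex of
`W G` vanishes in all degrees if and only if `χ(W G) = 0`. -/
theorem result : ∀ (n : ℕ) (V : Type) [Fintype V] [LinearOrder V] (G : SimpleGraph V), HSph n G →
    LQ (n / 2 + 1) G → ((∀ i : ℕ, L2Van G i) ↔ chiW G = 0) := by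
  intro n V _ _ G hS hA
  exact l2eul V G (n / 2) fun i hi => singer_LQ hS hA i (by omega)

end Pool.Agent.Results.MP_394d50_gt.AmenableReflections
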