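import Pool.Agent.Run7.h709.AC.Chi
import Pool.Agent.Run7.h709.AC.Cs
import Pool.Agent.Run7.h709.AC.Emb

/-!
# All the `L²`-Betti numbers vanish if and only if the Euler characteristic does: duality subgroups of right-angled
Coxeter groups

Let `W G` be the right-angled Coxeter group of the finite graph `G`, and let `Γ` be the kernel of `W G → (ℤ/2)^V`, a
torsion free subgroup of finite index. We prove that all the `L²`-Betti numbers of `K` vanish if `χ(K) = 0` (the
converse is the theorem of Atiyah), for all the Poincaré duality subgroups `K` of `Γ` (of type FL, orientable or not, of finite or infinite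
index) of dimension `q ≥ 2 b - 2`, if the set of all vertices of `G` is in the class `AC G b`. So Q1 holds for all
the closed aspherical manifolds of dimension at least `2 b - 2` whose fundamental groups are isomorphic to subgroups
of `Γ`.

The class `AC G b` contains the sets whose cliques have at most `b` elements and for which the `ℓ²`-homology of the
Davis complex vanishes in the top degree `b`, and is closed under cones and suspensions (with the same `b`), under
adding a vertex whose link is in the class `b - 1`, and under gluing along full subcomplexes of the class `b - 1`.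

Four families of examples are part of the theorem: (2) simplicial complexes in the sphere of dimension `2 d`, with
vertices coloured by `d + 1` colours and without monochromatic triangles, after the subdivision of the monochromatic
edges (`b = d + 1`); (3) joins of `m` graphs which are `2`-degenerate (`b = m + 1`; for example joins of polygons,
trees, series-parallel graphs, or of arbitrary graphs with subdivided edges); (4) the first barycentric subdivisions
of ALL simplicial complexes of dimension at most `2 m - 1`, `m ≤ 3` (`b = m + 1`; no embedding, no flagness, no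
manifold is assumed), and more generally the colourwise subdivisions of simplicial complexes such that the simplices
of one special colour have at most six and those of the other colours at most two vertices, in all dimensions;
(5) the colourwise subdivisions of complexes of dimension at most `2 d` in the sphere of dimension `2 d`, `d ≤ 2`
(`b = d + 1`; this includes the subgroups of codimension one).
-/

set_option autoImplicit false

namespace Pool.Agent.Results.MP_394d50_gt.DualitySubgroupsIff

open Pool.Agent.W907.SG Pool.Agent.W461.SGN Pool.Agent.N496.CV Pool.Agent.R782.Bal Run7.h709.AC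

/-- Let `K` be a Poincaré duality group of dimension `q ≥ 2 b` (of type FL). If `χ(K) = 0` then all the `L²`-Betti
numbers of `K` are zero, and if `χ(K) ≠ 0` then `q = 2 b` and `(-1)^b χ(K) > 0`. The Euler characteristic `χ(K)` is
computed by any resolution `C` of `ℤ` by finitely generated free modules which is zero above some degree `s`. -/
def ZeroLaw (K : Type) [Group K] (b : ℕ) : Prop :=
  ∀ q : ℕ, 2 * b ≤ q → Nonempty (PD K q) → ∀ (C : V7N.FreeRes K) (s : ℕ), (∀ i, s < i → C.r i = 0) →
    (∑ i ∈ Finset.range (s + 1), (-1 : ℤ) ^ i * (C.r i : ℤ) = 0 → ∀ k : ℕ, HasL2Betti K k 0) ∧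
    (∑ i ∈ Finset.range (s + 1), (-1 : ℤ) ^ i * (C.r i : ℤ) ≠ 0 → q = 2 * b ∧
      0 < (-1 : ℤ) ^ b * ∑ i ∈ Finset.range (s + 1), (-1 : ℤ) ^ i * (C.r i : ℤ))

theorem zero_pd {V : Type} [Fintype V] [LinearOrder V] (G : SimpleGraph V) {b : ℕ} (hAC : AC G (b + 1) Set.univ)
    (K : Subgroup (W G)) (hK : K ≤ (th G).ker) : ZeroLaw K b := by
  rintro q hq ⟨P⟩ C s hs
  have h1 := chiR_iff C s (q / 2) hs fun k hk => by
    by_cases h : 2 * k = q
    · exact absurd (by omega) hk
    · exact pd_mid G hAC K hK P (by omega) k h
  refine ⟨fun h k => ?_, fun h => ?_⟩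
  · have h6 := hasL2Betti K k
    rw [h1.2 h k] at h6
    exact h6
  · have hqb : q = 2 * b := by
      by_contra hne
      exact h (chiR_zero C s hs fun k => pd_all G hAC K hK P (by omega) k)
    subst hqb
    refine ⟨rfl, lt_of_le_of_ne (euler_sign C s b hs fun k hk => pd_mid G hAC K hK P (by omega) k (by omega)) ?_⟩
    intro h2
    rcases mul_eq_zero.1 h2.symm with h3 | h3
    · exact absurd h3 (pow_ne_zero _ (by norm_num))
    · exact h h3

/-- `X` is a simplicial complex, and each simplex of `X` all of whose vertices have the colour `c` has at most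
`2 a c` vertices. -/
def Bounded {N n : ℕ} (X : Finset (Finset (Fin N))) (col : Fin N → Fin n) (a : Fin n → ℕ) : Prop :=
  (∀ σ ∈ X, ∀ τ : Finset (Fin N), τ ⊆ σ → τ ∈ X) ∧
    ∀ σ ∈ X, ∀ c, (∀ v ∈ σ, col v = c) → σ.card ≤ 2 * a c

/-- Let `K` be a subgroup, of arbitrary index, of the kernel of `W G → (ℤ/2)^V`. (1) If the set of all vertices of the
finite graph `G` is in the class `AC G (b + 1)` and `K` is a Poincaré duality group of dimension `q ≥ 2 b` then all the
`L²`-Betti numbers of `K` are zero if `χ(K) = 0`, and otherwise `q = 2 b` and `(-1)^b χ(K) > 0`. (2) This holds for `q ≥ 2 d` if `G` is obtained from a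
simplicial complex `X` embedded in the sphere of dimension `2 d`, with vertices coloured by `d + 1` colours and without
monochromatic triangles, by subdividing the monochromatic edges. (3) This holds for `q ≥ 2 m` if `G` is the join of `m`
graphs which are `2`-degenerate. (4) This holds for `q ≥ 2 ∑ a c` if `G` is the graph of the colourwise barycentric
subdivision (with one colour: the barycentric subdivision) of a finite simplicial complex `X` with coloured vertices
such that the simplices with all the vertices of the colour `c` have at most `2 a c` vertices, `a c₀ ≤ 3` for one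
colour `c₀`, `a c ≤ 1` for the others. (5) This holds for `q ≥ 2 d` if `G` is such a subdivision, `d ≤ 2`,
`∑ a c ≤ d + 1`, and `X` is of dimension at most `2 d` and embedded in the sphere of dimension `2 d`. -/
theorem result :
    (∀ (b : ℕ) (V : Type) [Fintype V] [LinearOrder V] (G : SimpleGraph V), AC G (b + 1) Set.univ →
      ∀ K : Subgroup (W G), K ≤ (th G).ker → ZeroLaw K b) ∧
    (∀ (d N : ℕ) (X : Finset (Finset (Fin N))) (col : Fin N → Fin (d + 1)),
      (∀ σ ∈ X, ∀ τ : Finset (Fin N), τ ⊆ σ → τ ∈ X) →
      (∀ σ ∈ X, (∀ v ∈ σ, ∀ w ∈ σ, col v = col w) → σ.card ≤ 2) → EmbX d X col →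
      ∀ [Fintype (MF X col)] [LinearOrder (MF X col)], ∀ K : Subgroup (W (cs X col)), K ≤ (th (cs X col)).ker →
        ZeroLaw K d) ∧
    (∀ (m : ℕ) (V : Type) [Fintype V] [LinearOrder V] (G : SimpleGraph V) (p : V → Fin m),
      (∀ u v, p u ≠ p v → G.Adj u v) → (∀ i, Deg2 G p i) → ∀ K : Subgroup (W G), K ≤ (th G).ker →
        ZeroLaw K m) ∧
    (∀ (N n : ℕ) (X : Finset (Finset (Fin N))) (col : Fin N → Fin n) (a : Fin n → ℕ) (c₀ : Fin n),
      Bounded X col a → a c₀ ≤ 3 → (∀ c, c ≠ c₀ → a c ≤ 1) →
      ∀ [Fintype (MF X col)] [LinearOrder (MF X col)], ∀ K : Subgroup (W (cs X col)), K ≤ (th (cs X col)).ker →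
        ZeroLaw K (∑ c, a c)) ∧
    (∀ (N n d : ℕ) (X : Finset (Finset (Fin N))) (col : Fin N → Fin n) (a : Fin n → ℕ),
      Bounded X col a → d ≤ 2 → ∑ c, a c ≤ d + 1 → (∀ σ ∈ X, σ.card ≤ 2 * d + 1) → EmbX d X col →
      ∀ [Fintype (MF X col)] [LinearOrder (MF X col)], ∀ K : Subgroup (W (cs X col)), K ≤ (th (cs X col)).ker →
        ZeroLaw K d) := by
  refine ⟨?_, ?_, ?_, ?_, ?_⟩
  · intro b V _ _ G h K hK
    exact zero_pd G h K hK
  · intro d N X col hX ht hE _ _ K hK
    exact zero_pd _ (ac_cs hX ht hE) K hK
  · intro m V _ _ G p hp hd K hK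
    exact zero_pd G (ac_joins p hp hd) K hK
  · intro N n X col a c₀ hX h3 h1 _ _ K hK
    exact zero_pd _ (ac_bary hX.1 a c₀ h3 h1 hX.2) K hK
  · intro N n d X col a hX hd hsum hdim hE _ _ K hK
    exact zero_pd _ (ac_bary_emb hX.1 a d hd hsum hX.2 hdim (hE.emb hX.1).obs) K hK

end Pool.Agent.Results.MP_394d50_gt.DualitySubgroupsIff
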