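import Pool.Agent.Run7.h604.HK.Laws2

/-!
# Vanishing of the `L²`-Betti numbers and the Euler characteristic: two self-improvements

A class of closed aspherical manifolds closed under products and containing the surfaces, or more
generally a class of cocompact complexes (`Cplx`), is considered; `B` is the sum of all `L²`-Betti
numbers and `χ` the Euler characteristic, defined by the cells.

(1) All `L²`-Betti numbers of all the members with `χ = 0` vanish if and only if in infinitely many
even dimensions the members with `χ = 0` have bounded `B`.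

(2) If in infinitely many even dimensions `2 m` the Euler characteristic has the lower bound
`|χ| ≥ e ^ (- o (m)) B` for the members with `B` large, then `|χ| ≥ B` for all members (so that, by
`|χ| ≤ B`, no member has `L²`-Betti numbers in degrees of both parities).

Outline. The Künneth formula for reduced `L²`-homology, which is proved for these complexes, and
multiplication by surfaces of large genus and powers.
-/

set_option autoImplicit false

namespace Pool.Agent.Results.MP_394d50_gt.EulerShareLaw

open Pool.Agent.Run7.h604.HK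

theorem result (𝒞 : Cplx → Prop) (hp : ∀ A B, 𝒞 A → 𝒞 B → 𝒞 (A.prod B))
    (hS : ∀ t : ℝ, ∃ S, 𝒞 S ∧ S.dim = 2 ∧ t ≤ S.total ∧ |S.euler| ≤ S.total) :
    ((∀ A, 𝒞 A → A.euler = 0 → ∀ k, A.betti k = 0) ↔
      ∀ N : ℕ, ∃ m ≥ N, ∃ β : ℝ, ∀ A, 𝒞 A → A.dim = 2 * m → A.euler = 0 → A.total ≤ β) ∧
    ((∀ A, 𝒞 A → A.total ≤ |A.euler|) ↔
      ∀ δ : ℝ, 0 < δ → ∀ N : ℕ, ∃ m ≥ N, ∃ β : ℝ, ∀ A, 𝒞 A → A.dim = 2 * m →
        Real.exp (-(δ * m)) * (A.total - β) ≤ |A.euler|) :=
  Cplx.euler_laws 𝒞 hp hS

end Pool.Agent.Results.MP_394d50_gt.EulerShareLaw
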