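import Pool.Agent.Run7.h31.Raise.Density

/-!
# The sum of the `L²`-Betti numbers, the Euler characteristic and raising endomorphisms

Let `G` be an infinite group with a Poincaré duality complex `D` over the complex group algebra, for
instance the fundamental group of a closed aspherical manifold. The sum of all `L²`-Betti numbers is
at least `|χ|`. We bound the difference in even dimension `2 n` by means of chain endomorphisms which
lift the identity of the trivial module and raise the heights of the basis elements in an ordered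
set, over subgroups of finite index. Only the degrees `m` with `0 < m < n` and `n - m` odd matter.
If their densities of exceptions vanish, then the difference is zero; in particular all
`L²`-Betti numbers vanish if and only if `χ = 0`.

Outline. Let `P` be the sum of the `L²`-Betti numbers whose degrees are congruent to `n` modulo two,
and let `N` be the sum of the others. Then `|χ| = |P - N|`, hence the difference is the double of the
minimum of `P` and `N`. The duality pairs the degrees `m` and `2 n - m`, and both numbers are bounded by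
the density in degree `m`. In the degrees `0` and `2 n` they vanish because `G` is infinite.
-/

set_option autoImplicit false

universe u v

namespace Pool.Agent.Results.MP_394d50_gt.TotalBettiNumber

open Pool.Agent.Results.MP_984acc_gt.OrderRaising Run7.h31.Raise

/-- The group `G` is raised in degree `m` with density zero, or virtually has an ordered set whose
upper subcomplexes are exact in the degrees less than `m`, or virtually has a left-invariant total
order whose monoid `{g | 1 ≤ g}` is of type `FP_m`. -/
def IsGood (G : Type u) [Group G] (m : ℕ) : Prop :=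
  RaisedWithDensity.{u, v} G m 0 ∨ VirtuallyUpperExact.{u, v} G m ∨ VirtuallyOrderedFP.{u} G m

section proofs
variable {G : Type u} [Group G]

theorem good_bound {n : ℕ} {r : ℕ → ℕ} (D : Matrices G r) (hD : IsDualityComplex n D) (m : ℕ)
    (h : IsGood.{u, v} G m) : betti D m ≤ 0 ∧ (m < n → betti D (n - m) ≤ 0) := by
  rcases h with h4 | h4 | h4
  · exact density_bound D hD m 0 h4
  · exact density_bound D hD m 0 (density_of_upper h4)
  · exact density_bound D hD m 0 (density_of_ordered h4)

theorem even_bound [Infinite G] {n : ℕ} {r : ℕ → ℕ} (D : Matrices G r)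
    (hD : IsDualityComplex (2 * n) D) (ε : ℕ → ℝ) (h : ∀ m, 1 ≤ m → m < n → Odd (n + m) →
      betti D m ≤ ε m ∧ betti D (2 * n - m) ≤ ε m) :
    ∑ p ∈ Finset.range (2 * n + 1), betti D p
      ≤ (-1) ^ n * (eulerChar (2 * n) r : ℝ) + 4 * ∑ m ∈ oddCo n, ε m := by
  rw [euler_cast D hD, sign_formula, sum_formula]
  have h1 := odd_sum_le (betti D) ε n (fun hn => ends_zero D hD hn) h
  linarith

theorem betti_ge {r : ℕ → ℕ} (D : Matrices G r) (n : ℕ) (hD : IsDualityComplex n D) (p : ℕ)
    (hp : n < p) : betti D p = 0 := by
  unfold betti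
  apply Finset.sum_eq_zero
  intro j _
  have h3 := j.2
  have h4 := hD.length p hp
  omega

theorem all_zero {r : ℕ → ℕ} (D : Matrices G r) (n : ℕ) (hD : IsDualityComplex n D)
    (h : ∑ p ∈ Finset.range (n + 1), betti D p = 0) (p : ℕ) : betti D p = 0 := by
  rcases Nat.lt_or_ge n p with hp | hp
  · exact betti_ge D n hD p hp
  · exact (Finset.sum_eq_zero_iff_of_nonneg fun i _ => betti_nonneg D i).1 h p
      (Finset.mem_range.2 (by omega))

theorem abs_le_sum {n : ℕ} {r : ℕ → ℕ} (D : Matrices G r) (hD : IsDualityComplex n D) :
    |(eulerChar n r : ℝ)| ≤ ∑ p ∈ Finset.range (n + 1), betti D p := by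
  rw [euler_cast D hD]
  refine (Finset.abs_sum_le_sum_abs _ _).trans (Finset.sum_le_sum fun i _ => ?_)
  rw [abs_mul, abs_pow, abs_neg, abs_one, one_pow, one_mul, abs_of_nonneg (betti_nonneg D i)]

theorem sign_le_abs (n : ℕ) (x : ℝ) : (-1) ^ n * x ≤ |x| := by
  refine (le_abs_self _).trans (le_of_eq ?_)
  rw [abs_mul, abs_pow, abs_neg, abs_one, one_pow, one_mul]

theorem even_good [Infinite G] {n : ℕ} {r : ℕ → ℕ} (D : Matrices G r)
    (hD : IsDualityComplex (2 * n) D)
    (h : ∀ m, 1 ≤ m → m < n → Odd (n + m) → IsGood.{u, v} G m) :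
    ∑ p ∈ Finset.range (2 * n + 1), betti D p = (-1) ^ n * (eulerChar (2 * n) r : ℝ) := by
  have h1 := even_bound D hD (fun _ => 0) (fun m h1 h2 h3 =>
    ⟨(good_bound D hD m (h m h1 h2 h3)).1, (good_bound D hD m (h m h1 h2 h3)).2 (by omega)⟩)
  rw [Finset.sum_const_zero, mul_zero, add_zero] at h1
  refine le_antisymm h1 ((sign_le_abs n _).trans (abs_le_sum D hD))

theorem odd_bound [Infinite G] {n : ℕ} {r : ℕ → ℕ} (D : Matrices G r)
    (hD : IsDualityComplex (2 * n + 1) D) (ε : ℕ → ℝ) (h : ∀ m, 1 ≤ m → m ≤ n →
      betti D m ≤ ε m ∧ betti D (2 * n + 1 - m) ≤ ε m) :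
    ∑ p ∈ Finset.range (2 * n + 2), betti D p ≤ 2 * ∑ m ∈ Finset.range n, ε (m + 1) := by
  have e1 : 2 * n + 2 = (n + 1) + (n + 1) := by ring
  rw [e1, Finset.sum_range_add]
  have h1 : ∑ x ∈ Finset.range (n + 1), betti D (n + 1 + x)
      = ∑ m ∈ Finset.range (n + 1), betti D (2 * n + 1 - m) := by
    rw [← Finset.sum_range_reflect]
    refine Finset.sum_congr rfl fun j hj => ?_
    have hj' := Finset.mem_range.1 hj
    have e2 : n + 1 + (n + 1 - 1 - j) = 2 * n + 1 - j := by omega
    rw [e2]
  rw [h1, Finset.sum_range_succ', Finset.sum_range_succ', Nat.sub_zero,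
    betti_zero_infinite D hD, betti_top_infinite D hD (by omega), add_zero, add_zero,
    ← Finset.sum_add_distrib, Finset.mul_sum]
  apply Finset.sum_le_sum
  intro m hm
  have hm' := Finset.mem_range.1 hm
  have h2 := h (m + 1) (by omega) (by omega)
  linarith [h2.1, h2.2]

end proofs

/-- **The sum of the `L²`-Betti numbers and the Euler characteristic.** Let `D` be the complex of a
Poincaré duality group structure of dimension `d` on the infinite group `G`.

1. Let `d = 2 n`. If for all `m` with `1 ≤ m < n` and `n + m` odd the group `G` is raised in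
degree `m` with density at most `ε m`, then the sum of the `L²`-Betti numbers is at most `|χ|` plus
the fourfold sum of these `ε m`. If `G` is good in these degrees, then the sum is `(-1) ^ n χ`, and all
`L²`-Betti numbers vanish if and only if `χ = 0`.
2. Let `d = 2 n + 1`. If for all `m` with `1 ≤ m ≤ n` the group `G` is raised in degree `m` with
density at most `ε m`, then the sum of the `L²`-Betti numbers is at most the double of the sum of
these `ε m`. If `G` is good in these degrees, then all `L²`-Betti numbers vanish. -/
theorem result (G : Type u) [Group G] [Infinite G] (n : ℕ) (r : ℕ → ℕ) (D : Matrices G r) :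
    (IsDualityComplex (2 * n) D →
      (∀ ε : ℕ → ℝ, (∀ m, 1 ≤ m → m < n → Odd (n + m) → RaisedWithDensity.{u, v} G m (ε m)) →
        ∑ p ∈ Finset.range (2 * n + 1), betti D p
          ≤ |(eulerChar (2 * n) r : ℝ)| + 4 * ∑ m ∈ oddCo n, ε m) ∧
      ((∀ m, 1 ≤ m → m < n → Odd (n + m) → IsGood.{u, v} G m) →
        ∑ p ∈ Finset.range (2 * n + 1), betti D p = (-1) ^ n * (eulerChar (2 * n) r : ℝ) ∧
        ((∀ p, betti D p = 0) ↔ eulerChar (2 * n) r = 0))) ∧
    (IsDualityComplex (2 * n + 1) D →
      (∀ ε : ℕ → ℝ, (∀ m, 1 ≤ m → m ≤ n → RaisedWithDensity.{u, v} G m (ε m)) →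
        ∑ p ∈ Finset.range (2 * n + 2), betti D p ≤ 2 * ∑ m ∈ Finset.range n, ε (m + 1)) ∧
      ((∀ m, 1 ≤ m → m ≤ n → IsGood.{u, v} G m) → ∀ p, betti D p = 0)) := by
  constructor
  · intro hD
    constructor
    · intro ε h
      have h1 := even_bound D hD ε (fun m h1 h2 h3 =>
        ⟨(density_bound D hD m (ε m) (h m h1 h2 h3)).1,
          (density_bound D hD m (ε m) (h m h1 h2 h3)).2 (by omega)⟩)
      have h2 := sign_le_abs n (eulerChar (2 * n) r : ℝ)
      linarith
    · intro h
      have h1 := even_good D hD h
      refine ⟨h1, ?_, ?_⟩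
      · intro h2
        rw [Finset.sum_eq_zero (fun p _ => h2 p)] at h1
        have h4 : (eulerChar (2 * n) r : ℝ) = 0 := by
          rcases mul_eq_zero.1 h1.symm with h5 | h5
          · exact absurd h5 (pow_ne_zero n (by norm_num))
          · exact h5
        exact_mod_cast h4
      · intro h2
        rw [h2, Int.cast_zero, mul_zero] at h1
        exact all_zero D (2 * n) hD h1
  · intro hD
    constructor
    · intro ε h
      exact odd_bound D hD ε (fun m h1 h2 =>
        ⟨(density_bound D hD m (ε m) (h m h1 h2)).1,
          (density_bound D hD m (ε m) (h m h1 h2)).2 (by omega)⟩)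
    · intro h
      have h1 := odd_bound D hD (fun _ => 0) (fun m h1 h2 =>
        ⟨(good_bound D hD m (h m h1 h2)).1, (good_bound D hD m (h m h1 h2)).2 (by omega)⟩)
      rw [Finset.sum_const_zero, mul_zero] at h1
      exact all_zero D (2 * n + 1) hD
        (le_antisymm h1 (Finset.sum_nonneg fun p _ => betti_nonneg D p))

end Pool.Agent.Results.MP_394d50_gt.TotalBettiNumber
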